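import Mathlib
import Pool.Agent.P.MP_c61c44_al.Ring

/-!
A two-dimensional Cohen-Macaulay local ring with infinite residue field and a minimal reduction
`I` of the maximal ideal with reduction number 5 and third Dao number 6.
The ring is `ℚ[[a, b, u, v, w]] / (u^5 - a^3 w, v^5 - b^3 w, u v, u w, v w, w^2)`, `I = (a, b)`.
-/

set_option autoImplicit false

open IsLocalRing

namespace Pool.Agent.Results.MP_c61c44_al.Counterexample

/-- depth = dimension: the maximal ideal contains a regular sequence of length `dim R`. -/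
def IsCohenMacaulayLocal (R : Type) [CommRing R] [IsLocalRing R] : Prop :=
  ∃ rs : List R, (∀ r ∈ rs, r ∈ maximalIdeal R) ∧ RingTheory.Sequence.IsRegular R rs ∧
    (rs.length : WithBot ℕ∞) = ringKrullDim R

/-- `(J m : m) = J`. -/
def IsWeaklyFull {R : Type} [CommRing R] [IsLocalRing R] (J : Ideal R) : Prop :=
  (J * maximalIdeal R).colon (maximalIdeal R) = J

/-- `I ⊆ m` and `I m^r = m^(r+1)` for some `r`. -/
def IsReduction {R : Type} [CommRing R] [IsLocalRing R] (I : Ideal R) : Prop :=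
  I ≤ maximalIdeal R ∧ ∃ r : ℕ, I * maximalIdeal R ^ r = maximalIdeal R ^ (r + 1)

theorem result :
    ∃ (R : Type) (_ : CommRing R) (_ : IsLocalRing R),
      IsNoetherianRing R ∧ Infinite (ResidueField R) ∧ IsCohenMacaulayLocal R ∧
      ringKrullDim R = 2 ∧
      ∃ I : Ideal R, Minimal IsReduction I ∧
        IsLeast {n : ℕ | I * maximalIdeal R ^ n = maximalIdeal R ^ (n + 1)} 5 ∧
        IsLeast {t : ℕ | ∀ k, t ≤ k → IsWeaklyFull (I * maximalIdeal R ^ k)} 6 := by
  have hn := P.MP_c61c44_al.maximalIdeal_powerSeries₂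
  have hab := P.MP_c61c44_al.regular_powerSeries₂
  have ha : (PowerSeries.X : PowerSeries (PowerSeries ℚ)) ≠ 0 := PowerSeries.X_ne_zero
  have hb : (PowerSeries.C PowerSeries.X : PowerSeries (PowerSeries ℚ)) ≠ 0 := fun h =>
    PowerSeries.X_ne_zero (R := ℚ) (by simpa using congrArg PowerSeries.constantCoeff h)
  have hdim := P.MP_c61c44_al.Rg.dim_eq_two hn ha hab
  have hle := P.MP_c61c44_al.Rg.I₀_le hn
  have hred := P.MP_c61c44_al.Rg.red_ge_five hn
  refine ⟨P.MP_c61c44_al.Rg (PowerSeries.X : PowerSeries (PowerSeries ℚ))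
    (PowerSeries.C PowerSeries.X), inferInstance, inferInstance, inferInstance, ?_,
    ⟨_, fun r hr => hle (Ideal.subset_span (by simpa using hr)),
      P.MP_c61c44_al.Rg.isRegular_pair hn ha hab, by rw [hdim]; rfl⟩, hdim,
    P.MP_c61c44_al.Rg.I₀ _ _, ⟨⟨hle, 5, hred 5 le_rfl⟩, fun J hJ hJI => ?_⟩,
    ⟨hred 5 le_rfl, P.MP_c61c44_al.Rg.red_lower hn ha hab⟩, fun k hk => ?_, fun t ht => ?_⟩
  · exact Infinite.of_injective _ ((residue _).comp ((P.MP_c61c44_al.Rg.ι _ _).comp
      (algebraMap ℚ (PowerSeries (PowerSeries ℚ))))).injective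
  · obtain ⟨r, hr⟩ := hJ.2
    exact P.MP_c61c44_al.Rg.I₀_minimal hn ha hb hab J hJI r hr
  · rw [IsWeaklyFull, hred k (by omega), ← pow_succ]
    exact P.MP_c61c44_al.Rg.full_ge_six hn ha hab k hk
  · by_contra hlt
    have h := ht 5 (by omega)
    rw [IsWeaklyFull, hred 5 le_rfl, ← pow_succ] at h
    exact P.MP_c61c44_al.Rg.not_full_five hn ha hb hab h

end Pool.Agent.Results.MP_c61c44_al.Counterexample
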